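import Pool.Agent.Helper26.LU.Goals

/-!
# Project LU, packet E12: scaling of the null equation
-/

namespace Pool.Agent.Helper85.LU

open Pool.Agent.Helper26.LU

theorem tauI_nat {A B : Type} [CommRing A] [Algebra ℝ A] [CommRing B] [Algebra ℝ B]
    (f : A →ₐ[ℝ] B) (N : ℕ) (a : ℕ → A) (y : Fin 4 → A) (k : ℕ) :
    f (tauI N a y k) = tauI N (fun l => f (a l)) (fun j => f (y j)) k := by
  induction k with
  | zero => simp [tauI]
  | succ k ih =>
    simp only [tauI, map_mul, map_sum, map_pow, map_add, AlgHom.commutes, ih]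

theorem Nl_nat {A B : Type} [CommRing A] [Algebra ℝ A] [CommRing B] [Algebra ℝ B]
    (f : A →ₐ[ℝ] B) (M N : ℕ) (a : ℕ → A) (y : Fin 4 → A) :
    f (Nl M N a y) = Nl M N (fun l => f (a l)) (fun j => f (y j)) := by
  simp only [Nl, phN, map_sub, map_mul, map_sum, map_pow, map_add, AlgHom.commutes, tauI_nat,
    map_ofNat]

/-- E12. -/
theorem gE12 : Pool.Agent.Helper26.LU.G_E12 := by
  intro M N a z c w
  let f : Polynomial ℂ →ₐ[ℝ] Polynomial ℂ :=
    (Polynomial.aeval (R := ℂ) (Polynomial.C c * Polynomial.X)).restrictScalars ℝ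
  have hf : ∀ P : Polynomial ℂ, f P = P.comp (Polynomial.C c * Polynomial.X) := fun P => rfl
  have h1 : NlX M N a (fun j => c * z j) = f (NlX M N a z) := by
    rw [NlX, NlX, Nl_nat]
    congr 1
    · funext l
      rw [hf, Polynomial.C_comp]
    · funext j
      rw [hf, Polynomial.mul_comp, Polynomial.C_comp, Polynomial.X_comp, Polynomial.C_mul]
      ring
  rw [h1, hf, Polynomial.comp_C_mul_X_coeff, mul_comm]

end Pool.Agent.Helper85.LU
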