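import Pool.Agent.Helper26.LU.Goals

/-!
# Project LU, packet M1: Haar measure on the rotation group
-/

namespace Pool.Agent.Helper85.LU

open MeasureTheory Matrix Real Pool.Agent.Helper26.LU

/-- M1. -/
theorem gM1 : Pool.Agent.Helper26.LU.G_M1 := by
  let K : TopologicalSpace.PositiveCompacts ↥SO3 := ⊤
  let ν : Measure ↥SO3 := Measure.haarMeasure K
  have hν1 : ν Set.univ = 1 := by
    have := Measure.haarMeasure_self (K₀ := K)
    simpa [K, ν] using this
  have : IsProbabilityMeasure ν := ⟨hν1⟩
  refine ⟨ν.inv, ?_, ?_, ?_⟩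
  · constructor
    rw [Measure.inv_apply]
    simp
  · intro S
    exact map_mul_right_eq_self ν.inv S
  · intro U hU hne
    rw [Measure.inv_apply]
    refine IsOpen.measure_pos ν ?_ ?_
    · exact hU.inv
    · obtain ⟨x, hx⟩ := hne
      exact ⟨x⁻¹, by simpa using hx⟩

end Pool.Agent.Helper85.LU
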